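import Pool.Agent.H752R3.StarHur

/-!
Star-Hurewicz Isbell-Mrowka spaces of cardinality at least the unbounding number.
-/

set_option autoImplicit false
set_option linter.all false

namespace Pool.Agent.Results.MP_b1d3ea_lc.LargeStarHurewicz

open Set Pool.Agent.H752R3.StarHur
open scoped Cardinal

/-- small cofinal families of countable sets -/
def Qp (κ : Cardinal.{0}) : Prop := ∀ α : Type, #α ≤ κ →
  ∃ 𝒞 : Set (Set α), #𝒞 ≤ κ ∧ (∀ C ∈ 𝒞, C.Countable) ∧ ∀ D : Set α, D.Countable → ∃ C ∈ 𝒞, D ⊆ C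

theorem q_zero : Qp ℵ₀ := by
  intro α h
  have hc : Countable α := Cardinal.mk_le_aleph0_iff.1 h
  refine ⟨{univ}, ?_, ?_, fun D _ => ⟨univ, rfl, subset_univ _⟩⟩
  · rw [Cardinal.mk_singleton]
    exact Cardinal.one_le_aleph0
  · rintro C rfl
    exact countable_univ

theorem mk_Iio_lt' (c : Cardinal.{0}) (b : c.ord.ToType) : #(Iio b) < c := by
  simpa using Cardinal.mk_Iio_lt b

theorem q_succ {κ : Cardinal.{0}} (hκ : ℵ₀ ≤ κ) (h : Qp κ) : Qp (Order.succ κ) := by
  classical
  intro α hα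
  let β : Type := (Order.succ κ).ord.ToType
  have hβ : #β = Order.succ κ := Cardinal.mk_ord_toType _
  have hs : ℵ₀ ≤ Order.succ κ := hκ.trans (Order.le_succ κ)
  rw [← hβ] at hα
  obtain ⟨f⟩ := (Cardinal.le_def _ _).1 hα
  have hIio : ∀ b : β, #(Iio b) ≤ κ := fun b => Order.lt_succ_iff.1 (mk_Iio_lt' _ b)
  have hS : ∀ b : β, #{a : α | f a < b} ≤ κ := by
    intro b
    refine le_trans ?_ (hIio b)
    exact Cardinal.mk_le_of_injective (f := fun a : {a : α | f a < b} => (⟨f a.1, a.2⟩ : Iio b))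
      (fun a a' haa => Subtype.ext (f.injective (Subtype.ext_iff.1 haa)))
  choose 𝒞 h1 h2 h3 using fun b => h _ (hS b)
  refine ⟨⋃ b, (fun C : Set {a : α | f a < b} => Subtype.val '' C) '' 𝒞 b, ?_, ?_, ?_⟩
  · calc #(⋃ b, (fun C : Set {a : α | f a < b} => Subtype.val '' C) '' 𝒞 b : Set (Set α))
        ≤ Cardinal.sum fun b => #((fun C : Set {a : α | f a < b} => Subtype.val '' C) '' 𝒞 b :
            Set (Set α)) := Cardinal.mk_iUnion_le_sum_mk
      _ ≤ Cardinal.sum fun _ : β => κ :=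
          Cardinal.sum_le_sum _ _ fun b => Cardinal.mk_image_le.trans (h1 b)
      _ = #β * κ := by rw [Cardinal.sum_const, Cardinal.lift_id, Cardinal.lift_id]
      _ ≤ Order.succ κ * Order.succ κ := by
          rw [hβ]
          exact mul_le_mul' le_rfl (Order.le_succ κ)
      _ = Order.succ κ := Cardinal.mul_eq_self hs
  · intro C hC
    obtain ⟨b, C', hC', rfl⟩ := mem_iUnion.1 hC
    exact (h2 b C' hC').image _
  · intro D hD
    have hb : ∃ b : β, ∀ a ∈ D, f a < b := by
      by_contra hcon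
      push Not at hcon
      have hcov : (univ : Set β) ⊆ ⋃ a : D, Iic (f a.1) := by
        intro b _
        obtain ⟨a, haD, hab⟩ := hcon b
        exact mem_iUnion.2 ⟨⟨a, haD⟩, hab⟩
      have h4 : #β ≤ κ := by
        rw [← Cardinal.mk_univ]
        calc #(univ : Set β) ≤ #(⋃ a : D, Iic (f a.1) : Set β) := Cardinal.mk_le_mk_of_subset hcov
          _ ≤ Cardinal.sum fun a : D => #(Iic (f a.1)) := Cardinal.mk_iUnion_le_sum_mk
          _ ≤ Cardinal.sum fun _ : D => κ := by
              apply Cardinal.sum_le_sum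
              intro a
              have h5 : Iic (f a.1) = insert (f a.1) (Iio (f a.1)) := Iio_insert.symm
              rw [h5]
              calc #(insert (f a.1) (Iio (f a.1)) : Set β) ≤ #(Iio (f a.1)) + 1 :=
                    Cardinal.mk_insert_le
                _ ≤ κ + 1 := by gcongr; exact hIio _
                _ = κ := Cardinal.add_one_eq hκ
          _ = #D * κ := by rw [Cardinal.sum_const, Cardinal.lift_id, Cardinal.lift_id]
          _ ≤ κ * κ := by
              apply mul_le_mul' _ le_rfl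
              exact (Cardinal.mk_le_aleph0_iff.2 hD.to_subtype).trans hκ
          _ = κ := Cardinal.mul_eq_self hκ
      rw [hβ] at h4
      exact absurd h4 (not_le.2 (Order.lt_succ κ))
    obtain ⟨b, hb⟩ := hb
    obtain ⟨C, hC, hDC⟩ := h3 b (Subtype.val ⁻¹' D) (hD.preimage Subtype.val_injective)
    refine ⟨_, mem_iUnion.2 ⟨b, C, hC, rfl⟩, fun a ha => ?_⟩
    exact ⟨⟨a, hb a ha⟩, hDC ha, rfl⟩

theorem q_aleph (n : ℕ) : Qp (Cardinal.aleph n) := by
  induction n with
  | zero =>
    rw [Nat.cast_zero, Cardinal.aleph_zero]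
    exact q_zero
  | succ n ih =>
    have h1 : Cardinal.aleph ((n + 1 : ℕ) : Ordinal.{0}) = Order.succ (Cardinal.aleph n) := by
      rw [← Cardinal.aleph_succ]
      congr 1
    rw [h1]
    exact q_succ (Cardinal.aleph0_le_aleph _) ih

theorem hasCof_continuum {α : Type} (h : #α = 𝔠) : HasCof α := by
  have hne : Nonempty α := by
    rw [← Cardinal.mk_ne_zero_iff, h]
    exact Cardinal.continuum_ne_zero
  refine ⟨range fun e : ℕ → α => range e, ?_, ?_, ?_⟩
  · refine Cardinal.mk_range_le.trans ?_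
    rw [← Cardinal.power_def, h, Cardinal.mk_nat, Cardinal.continuum_power_aleph0]
  · rintro _ ⟨e, rfl⟩
    exact countable_range e
  · intro D hD
    rcases D.eq_empty_or_nonempty with h0 | h0
    · obtain ⟨a⟩ := hne
      exact ⟨_, ⟨fun _ => a, rfl⟩, by rw [h0]; exact empty_subset _⟩
    · obtain ⟨e, he⟩ := hD.exists_eq_range h0
      exact ⟨_, ⟨e, rfl⟩, he.subset⟩

/-- Let `𝒜` be an almost disjoint family with at least `𝔟` members whose Isbell-Mrowka space is
star-Hurewicz. Then no family of at most `|𝒜|` countable subsets of `𝒜` is cofinal in the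
countable subsets of `𝒜`; in particular `|𝒜|` is larger than every `ℵ_n`, and smaller than the
continuum. -/
theorem result (𝒜 : Set (Set ℕ)) (hA : IsAD 𝒜) (hb : bNumber ≤ #𝒜)
    (hH : StarHurewicz (Psi 𝒜)) :
    ¬ HasCof 𝒜 ∧ (∀ n : ℕ, Cardinal.aleph n < #𝒜) ∧ #𝒜 < 𝔠 := by
  have h0 : ¬ HasCof 𝒜 := fun h => main hA hb h hH
  have hunc : ℵ₀ < #𝒜 := aleph0_lt_b.trans_le hb
  refine ⟨h0, fun n => ?_, ?_⟩
  · induction n with
    | zero =>
      rw [Nat.cast_zero, Cardinal.aleph_zero]
      exact hunc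
    | succ n ih =>
      have h1 : Cardinal.aleph ((n + 1 : ℕ) : Ordinal.{0}) = Order.succ (Cardinal.aleph n) := by
        rw [← Cardinal.aleph_succ]
        congr 1
      by_contra hcon
      have h2 : #𝒜 = Cardinal.aleph ((n + 1 : ℕ) : Ordinal.{0}) := by
        apply le_antisymm (not_lt.1 hcon)
        rw [h1]
        exact Order.succ_le_of_lt ih
      obtain ⟨𝒞, k1, k2, k3⟩ := q_aleph (n + 1) 𝒜 h2.le
      exact h0 ⟨𝒞, by rw [h2]; exact k1, k2, k3⟩
  · have h1 : #𝒜 ≤ 𝔠 := by
      have h2 := Cardinal.mk_set_le 𝒜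
      rwa [Cardinal.mk_set, Cardinal.mk_nat, Cardinal.two_power_aleph0] at h2
    exact lt_of_le_of_ne h1 fun h => h0 (hasCof_continuum h)

end Pool.Agent.Results.MP_b1d3ea_lc.LargeStarHurewicz
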